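import Mathlib
import Pool.Agent.Work.MP_8efaaa_nt.K7.Defs
import Pool.Agent.Work.MP_8efaaa_nt.K7.CDt
import Pool.Agent.Work.MP_8efaaa_nt.K7.CCx
import Pool.Agent.Work.MP_8efaaa_nt.K7.CPo
import Pool.Agent.Work.MP_8efaaa_nt.K7.CAc
import Pool.Agent.Work.MP_8efaaa_nt.K7.CAl
import Pool.Agent.Work.MP_8efaaa_nt.K7.CKr
import Pool.Agent.Work.MP_8efaaa_nt.K7.AZb
import Pool.Agent.Work.MP_8efaaa_nt.K7.ACj
import Pool.Agent.Work.MP_8efaaa_nt.N7.CDat
import Pool.Agent.Work.MP_8efaaa_nt.N5.CConj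
import Pool.Agent.Work.MP_8efaaa_nt.N7.ICj

/-!
# M7/CDx (S): the data `D7` with `m = m'` when `y = 0`, `x ≥ 0`

Copy the (private) lemmas and the proof of `K7/CDt.lean`, `exists_d7`; the structure `C7` of the proof has `hm : 2 m ^ 2 = x + y s` and `hmm : conj m = m'` (in `ℂ`); if `y = 0` and `0 ≤ x` then `m ^ 2` is a real number `≥ 0`, so `m` is real
(`Complex.conj_eq_iff_real`, or: `conj m ^ 2 = m ^ 2`, so `conj m = ± m`, and `conj m = - m` makes `m` purely imaginary, `m ^ 2 ≤ 0`, so `m = 0`), so `conj m = m` and `m' = m` as `algebraMap F ℂ` is injective.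
-/

set_option autoImplicit false

namespace Pool.Agent.Work.MP_8efaaa_nt.M7

open IsDedekindDomain NumberField Pool.Agent.Work.MP_787500_nt.HC
open Pool.Agent.Work.MP_8efaaa_nt.T Pool.Agent.Work.MP_8efaaa_nt.R
open Pool.Agent.Work.MP_8efaaa_nt.N5 Pool.Agent.Work.MP_8efaaa_nt.N7
open Pool.Agent.Work.MP_8efaaa_nt.K7
open scoped nonZeroDivisors

universe u

private theorem conj_sq {t : ℂ} {a : ℕ} (ha : 0 < a) (h : t ^ 2 = -(a : ℂ)) :
    (starRingEnd ℂ) t = -t := by
  have h1 : ((starRingEnd ℂ) t) ^ 2 = t ^ 2 := by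
    rw [← map_pow, h, map_neg, map_natCast]
  rcases sq_eq_sq_iff_eq_or_eq_neg.1 h1 with h2 | h2
  · exfalso
    obtain ⟨r, hr⟩ := Complex.conj_eq_iff_real.1 h2
    rw [hr] at h
    have h3 : ((r ^ 2 : ℝ) : ℂ) = ((-(a : ℝ) : ℝ) : ℂ) := by
      push_cast
      exact h
    have h4 := Complex.ofReal_injective h3
    have h5 : (0 : ℝ) < a := by exact_mod_cast ha
    nlinarith [sq_nonneg r]
  · exact h2

private theorem idat7_of {K : Type u} {F : Type*} [Field K] [NumberField K] [Algebra K ℂ]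
    [Field F] [NumberField F] [Algebra K F] [Algebra F ℂ] [IsScalarTower K F ℂ] [IsGalois K F]
    {a : ℕ} {s : K} (hb : Base K a s) {v v' : HeightOneSpectrum (𝓞 K)}
    {d : ℕ} (hd : d ≠ 0) {w : F} {W W' : ClassGroup (𝓞 K) → F}
    (h : ICtx7 K F v v' d w W W') (κ : F ≃ₐ[ℚ] F)
    (hκ : ∀ x : F, algebraMap F ℂ (κ x) = (starRingEnd ℂ) (algebraMap F ℂ x)) :
    IDat7 K F a d s v w W W' κ := by
  have inj : Function.Injective (algebraMap F ℂ) := (algebraMap F ℂ).injective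
  have hw := h.cw
  have R := wdata_complex (W := fun C => algebraMap F ℂ (W C))
    (W' := fun C => algebraMap F ℂ (W' C)) hb hw.ne hw.hv hw.hv' hw.mul hw.hW hw.hW'
  have hP := wprod_complex (W := fun C => algebraMap F ℂ (W C)) hb hw.ne hw.hv hw.hv' hw.mul hw.hW
  have hR := rec3_complex hb hw
  have ha : 0 < a := Nat.pos_of_ne_zero (by
    rintro rfl
    have := hb.mod
    norm_num at this)
  refine
    { rel := ⟨fun c => ?_, fun c => ?_, fun c => ?_, fun c => ?_, fun c => ?_⟩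
      rec3 := fun c => ?_
      prod := fun m β hβ c => ?_
      hw := h.hw
      act := fun σ => mact7_of hb h hd σ
      cs := ?_
      cw := ?_
      cW := fun C => ?_
      cW' := fun C => ?_ }
  · apply inj
    rw [map_add, map_pow, map_pow, map_one]
    exact R.four c
  · apply inj
    rw [map_mul, map_pow, map_add, map_one, map_pow, map_mul, map_ofNat]
    exact R.rec1 c
  · apply inj
    rw [map_mul, map_pow, map_add, map_one, map_pow, map_mul, map_ofNat]
    exact R.rec2 c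
  · intro h0
    apply R.ne c
    show algebraMap F ℂ (W c) = 0
    rw [h0, map_zero]
  · intro h0
    apply R.ne' c
    show algebraMap F ℂ (W' c) = 0
    rw [h0, map_zero]
  · apply inj
    rw [map_mul, map_add, map_add, map_one, map_pow, map_pow, map_ofNat]
    exact hR c
  · apply inj
    rw [map_pow, ← IsScalarTower.algebraMap_apply K F ℂ, map_pow, map_prod]
    simp only [map_add, map_one, map_pow]
    exact hP m β hβ c
  · apply inj
    rw [hκ, map_neg, ← IsScalarTower.algebraMap_apply K F ℂ]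
    apply conj_sq ha
    rw [← map_pow, hb.sq, map_neg, map_natCast]
  · apply inj
    rw [hκ]
    exact h.hwr
  · apply inj
    rw [hκ]
    exact (conj_W hb hw C).1
  · apply inj
    rw [hκ]
    exact (conj_W hb hw C).2

/-- complex conjugation on the roots of unity of order `8` -/
private theorem conj_z8 {u : ℂ} (hu : u ^ 4 = -1) : (starRingEnd ℂ) u = u ^ 7 := by
  have h8 : u ^ 8 = 1 := by
    have : u ^ 8 = (u ^ 4) ^ 2 := by ring
    rw [this, hu]
    norm_num
  have hn : ‖u‖ = 1 := by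
    have h1 : ‖u‖ ^ 8 = 1 := by rw [← norm_pow, h8, norm_one]
    exact (pow_eq_one_iff_of_nonneg (norm_nonneg u) (by norm_num)).1 h1
  have h0 : u ≠ 0 := by
    intro h
    rw [h, norm_zero] at hn
    exact zero_ne_one hn
  have h2 : (starRingEnd ℂ) u * u = 1 := by
    rw [mul_comm, Complex.mul_conj, Complex.normSq_eq_norm_sq, hn]
    norm_num
  have h3 : u ^ 7 * u = 1 := by rw [← pow_succ, h8]
  exact mul_right_cancel₀ h0 (h2.trans h3.symm)

private theorem cdt_oddm {K : Type*} [Field K] [NumberField K] {b c : Ideal (𝓞 K)} (hb : OddI b)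
    (hc : OddI c) : OddI (b * c) := by
  unfold OddI at *
  rw [map_mul]
  exact hb.mul hc

/-- the fourth powers of the places above `2` -/
private theorem cdt_cl {K : Type*} [Field K] [NumberField K] {v v' : HeightOneSpectrum (𝓞 K)}
    (h : pr v * pr v' = prin (Units.mk0 (2 : K) two_ne_zero)) (I : Idl K) :
    cl (pr v' ^ 4 * I) = cl (((pr v)⁻¹) ^ 4 * I) := by
  have h1 : pr v' = (pr v)⁻¹ * prin (Units.mk0 (2 : K) two_ne_zero) := by
    rw [← h, inv_mul_cancel_left]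
  rw [eq_comm, cl_eq_iff]
  refine ⟨(Units.mk0 (2 : K) two_ne_zero) ^ 4, ?_⟩
  have h2 : prin ((Units.mk0 (2 : K) two_ne_zero) ^ 4) = prin (Units.mk0 (2 : K) two_ne_zero) ^ 4 :=
    map_pow (toPrincipalIdeal (𝓞 K) K) _ 4
  rw [h1, h2, mul_pow, mul_comm (((pr v)⁻¹) ^ 4) (_ ^ 4), mul_assoc]

private theorem d7_of {K : Type u} {F : Type*} [Field K] [NumberField K] [Algebra K ℂ]
    [Field F] [NumberField F] [Algebra K F] [Algebra F ℂ] [IsScalarTower K F ℂ] [IsGalois K F]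
    [IsGalois ℚ F] {a : ℕ} {s : K} (hb : Base K a s)
    {S : 𝓞 K} (hS : algebraMap (𝓞 K) K S = s) {τ : 𝓞 K ≃+* 𝓞 K} (hτ : τ S = -S)
    {v v' : HeightOneSpectrum (𝓞 K)} {d : ℕ} (hd : d ≠ 0) {x y : ℤ} {ζ w m m' : F}
    {W W' : ClassGroup (𝓞 K) → F} {Z Z' : Ideal (𝓞 K) → F}
    (h : C7 K F s v v' d x y ζ w m m' W W' Z Z')
    (hζ : algebraMap F ℂ (ζ + ζ ^ 7) = ((Real.sqrt 2 : ℝ) : ℂ)) :
    ∃ κ : F ≃ₐ[ℚ] F, D7 K F a d x y s S τ v v' ζ w m m' W W' Z Z' κ := by
  obtain ⟨κ, hκ⟩ := N5.exists_conj (F := F)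
  have inj : Function.Injective (algebraMap F ℂ) := (algebraMap F ℂ).injective
  have hw := h.ic.cw
  have hO : ∀ c : Ideal (𝓞 K), OddI c → OddI (cj τ c) := fun c hc => (oddI_cj7 hb hS hτ).2 hc
  refine ⟨κ, ?_⟩
  refine
    { id := idat7_of hb hd h.ic κ hκ
      ne := hw.ne
      hv := hw.hv
      hv' := hw.hv'
      z8 := h.z8
      hm := h.hm
      z1 := fun c hc => ?_
      z1' := fun c hc => ?_
      zp := fun δ n hn hδ hδo c hc => ?_
      zp' := fun δ n hn hδ hδo c hc => ?_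
      act := fun σ M hM => act_all7 hb hS h hd σ M hM
      mov := fun g hg => all_act7 hb hS h hd hg
      cz := ?_
      cZ := fun c hc => ⟨?_, ?_⟩
      cm := ⟨?_, ?_⟩
      pos := fun c hc h2 => pos_z7 hb hS hτ h hζ hc h2
      mpos := fun n h2 => pos_m7 h hζ n h2
      kron := fun l L Γ _ V hV hl hl2 hn C => kron_c7 hb h.ic V hV hl hl2 hn C }
  · apply inj
    rw [map_pow, map_add, map_one, map_pow, h.hZ c hc, z7_sq hb hw.hv hc]
    have := hw.hW (pr v ^ 4 * (idl c)⁻¹)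
    rw [this]
  · apply inj
    rw [map_pow, map_add, map_one, map_pow, h.hZ' c hc, z7_sq hb hw.hv' hc, ← cdt_cl hw.mul]
    have := hw.hW' (pr v' ^ 4 * (idl c)⁻¹)
    rw [this]
  · apply inj
    rw [map_mul, map_intCast, h.hZ _ (cdt_oddm hδo hc), h.hZ _ hc]
    exact z7_span hb hw.hv hc hn hδ hδo
  · apply inj
    rw [map_mul, map_intCast, h.hZ' _ (cdt_oddm hδo hc), h.hZ' _ hc]
    exact z7_span hb hw.hv' hc hn hδ hδo
  · apply inj
    rw [hκ, map_pow]
    apply conj_z8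
    rw [← map_pow, h.z8, map_neg, map_one]
  · apply inj
    rw [hκ, h.hZ c hc, h.hZ' _ (hO c hc)]
    exact conj_z7 hb hS hτ hw.ne hw.hv hw.hv' hc
  · apply inj
    rw [hκ, h.hZ' c hc, h.hZ _ (hO c hc)]
    exact conj_z7 hb hS hτ hw.ne.symm hw.hv' hw.hv hc
  · apply inj
    rw [hκ]
    exact h.hmm
  · apply inj
    rw [hκ, ← h.hmm, Complex.conj_conj]

/-- the square root of a real number `≥ 0` is real -/
private theorem CDx_real {z : ℂ} {r : ℝ} (hr : 0 ≤ r) (h : z ^ 2 = (r : ℂ)) :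
    (starRingEnd ℂ) z = z := by
  have h1 : ((starRingEnd ℂ) z) ^ 2 = z ^ 2 := by
    rw [← map_pow, h, Complex.conj_ofReal]
  rcases sq_eq_sq_iff_eq_or_eq_neg.1 h1 with h2 | h2
  · exact h2
  · have h3 : (starRingEnd ℂ) z * z = -(r : ℂ) := by
      rw [h2, ← h]
      ring
    rw [mul_comm, Complex.mul_conj] at h3
    have h4 : Complex.normSq z = -r := by exact_mod_cast h3
    have h5 : Complex.normSq z = 0 := le_antisymm (by linarith) (Complex.normSq_nonneg z)
    rw [Complex.normSq_eq_zero.1 h5, map_zero]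

theorem exists_d7x {K : Type u} [Field K] [NumberField K] {a : ℕ} {s : K} (hb : Base K a s)
    {S : 𝓞 K} (hS : algebraMap (𝓞 K) K S = s) {τ : 𝓞 K ≃+* 𝓞 K} (hτ : τ S = -S)
    {v : HeightOneSpectrum (𝓞 K)} (hv : (2 : 𝓞 K) ∈ v.asIdeal) {d : ℕ} (hd : d ≠ 0) (x y : ℤ) :
    ∃ (F : Type) (_ : Field F) (_ : NumberField F) (_ : Algebra K F)
      (_ : FiniteDimensional K F) (_ : IsGalois K F) (_ : IsGalois ℚ F)
      (v' : HeightOneSpectrum (𝓞 K)) (ζ w m m' : F)
      (W W' : ClassGroup (𝓞 K) → F) (Z Z' : Ideal (𝓞 K) → F) (κ : F ≃ₐ[ℚ] F),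
      D7 K F a d x y s S τ v v' ζ w m m' W W' Z Z' κ ∧ (y = 0 → 0 ≤ x → m' = m) := by
  obtain ⟨φ⟩ : Nonempty (K →+* ℂ) := inferInstance
  let _ : Algebra K ℂ := φ.toAlgebra
  obtain ⟨v', F, hF1, hF2, hF3, ζ₀, w, m, m', W, W', Z, Z', h0⟩ := exists_c7 hb hv d x y
  have hNF : NumberField F := NumberField.of_module_finite K F
  have hF4 : @IsGalois ℚ _ F _ DivisionRing.toRatAlgebra := by
    convert hF3
  obtain ⟨ζ, h1, hζ⟩ := exists_zeta7 h0
  obtain ⟨κ, h⟩ := d7_of hb hS hτ hd h1 hζ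
  refine ⟨F, inferInstance, hNF, inferInstance, hF1, hF2, hF4, v', ζ, w, m, m', W, W', Z, Z', κ,
    h, ?_⟩
  intro hy hx
  apply (algebraMap F ℂ).injective
  have hx' : (0 : ℝ) ≤ x := by exact_mod_cast hx
  have h2 : (algebraMap F ℂ m) ^ 2 = (((x : ℝ) / 2 : ℝ) : ℂ) := by
    have h3 := congrArg (algebraMap F ℂ) h1.hm
    rw [hy, Int.cast_zero, zero_mul, add_zero, map_mul, map_pow, map_ofNat, map_intCast] at h3
    push_cast
    rw [← h3]
    ring
  rw [← h1.hmm]
  exact CDx_real (by positivity) h2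

end Pool.Agent.Work.MP_8efaaa_nt.M7
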