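import Mathlib
import Pool.Agent.Work.MP_8efaaa_nt.K7.Defs

/-!
# M7/ESm4 (S-M): the sum over the classes with four fixed points (abstract)

Model `K7/ESm.lean`, `sum_fix`. `j ↦ γ j⁻¹` is an involution with exactly the four fixed points; the other classes form `(card A - 4) / 2 = 2 (mod 4)` pairs, each with sum `Q` modulo `E`; `2 P C = Q` modulo `E` for the fixed ones; so modulo `E`:
`0 = 2 Q + P C0 + P C0' + P C1 + P C1' = 2 Q + 2 P C0 + 2 P C1 + (P C0' - P C0) + (P C1' - P C1)` and `2 Q + Q + Q = 0`. Hint: work in `G ⧸ E` with the function `f C = 2 • ...`, or with `Finset.sum_involution` for `∑ over non fixed`; e.g. choose a half system `H` by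
a linear order (`Encodable`/`Fintype.equivFin`): `H = {j | j < γ j⁻¹}`.
-/

set_option autoImplicit false

namespace Pool.Agent.Work.MP_8efaaa_nt.M7

open IsDedekindDomain NumberField Pool.Agent.Work.MP_787500_nt.HC
open Pool.Agent.Work.MP_8efaaa_nt.T Pool.Agent.Work.MP_8efaaa_nt.R
open Pool.Agent.Work.MP_8efaaa_nt.N5 Pool.Agent.Work.MP_8efaaa_nt.N7
open Pool.Agent.Work.MP_8efaaa_nt.K7
open scoped nonZeroDivisors

/-- a fixed point free involution splits a finite set into pairs -/
private theorem ESm4_pair {A G : Type} [DecidableEq A] [AddCommGroup G] (i : A → A)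
    (hi : ∀ x, i (i x) = x) (f : A → G) (q : G) (hf : ∀ x, f x + f (i x) = q) :
    ∀ (n : ℕ) (S : Finset A), S.card = n → (∀ x ∈ S, i x ∈ S) → (∀ x ∈ S, i x ≠ x) →
      ∃ k : ℕ, S.card = 2 * k ∧ ∑ x ∈ S, f x = k • q := by
  intro n
  induction n using Nat.strong_induction_on with
  | _ n ih =>
    intro S hS h1 h2
    rcases S.eq_empty_or_nonempty with rfl | ⟨x, hx⟩
    · exact ⟨0, by simp, by simp⟩
    · have hx' : i x ∈ S.erase x := Finset.mem_erase.2 ⟨h2 x hx, h1 x hx⟩
      have c1 : (S.erase x).card + 1 = S.card := Finset.card_erase_add_one hx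
      have c2 : ((S.erase x).erase (i x)).card + 1 = (S.erase x).card :=
        Finset.card_erase_add_one hx'
      obtain ⟨k, hk1, hk2⟩ := ih ((S.erase x).erase (i x)).card (by omega)
        ((S.erase x).erase (i x)) rfl (by
          intro y hy
          rw [Finset.mem_erase, Finset.mem_erase] at hy ⊢
          refine ⟨fun h => hy.2.1 ?_, fun h => hy.1 ?_, h1 y hy.2.2⟩
          · rw [← hi y, h, hi]
          · rw [← hi y, h]) (by
          intro y hy
          rw [Finset.mem_erase, Finset.mem_erase] at hy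
          exact h2 y hy.2.2)
      refine ⟨k + 1, by omega, ?_⟩
      rw [← Finset.add_sum_erase S f hx, ← Finset.add_sum_erase _ f hx', hk2, ← add_assoc, hf,
        succ_nsmul, add_comm]

theorem sum_fix4 {A G : Type} [CommGroup A] [Fintype A] [AddCommGroup G] (E : AddSubgroup G)
    (P : A → G) (m : G →+ G) (hm : ∀ R, m R - R ∈ E) {γ : A} {Q : G}
    (hQ : ∀ C, m (P C) + P (γ * C⁻¹) = Q) (h4 : (4 : ℕ) • Q = 0) (hsum : ∑ C, P C = 0)
    (h8 : 8 ∣ Fintype.card A) {C0 C0' C1 C1' : A} (h1 : C0 ≠ C0') (h2 : C0 ≠ C1) (h3 : C0 ≠ C1')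
    (h4' : C0' ≠ C1) (h5 : C0' ≠ C1') (h6 : C1 ≠ C1')
    (hfix : ∀ C, C ^ 2 = γ ↔ C = C0 ∨ C = C0' ∨ C = C1 ∨ C = C1') :
    (P C0' - P C0) + (P C1' - P C1) ∈ E := by
  classical
  set f : A → G ⧸ E := fun C => QuotientAddGroup.mk' E (P C) with hf
  set q : G ⧸ E := QuotientAddGroup.mk' E Q with hq
  have hfq : ∀ C, f C + f (γ * C⁻¹) = q := by
    intro C
    have e1 : f C = QuotientAddGroup.mk' E (m (P C)) := by
      rw [hf, eq_comm, ← sub_eq_zero, ← map_sub]
      exact (QuotientAddGroup.eq_zero_iff _).2 (hm (P C))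
    rw [e1, hq, ← hQ C, map_add]
  have h4q : (4 : ℕ) • q = 0 := by
    rw [hq, ← map_nsmul, h4, map_zero]
  have hfs : ∑ C, f C = 0 := by
    rw [hf, ← map_sum, hsum, map_zero]
  have hfx : ∀ C, γ * C⁻¹ = C ↔ C = C0 ∨ C = C0' ∨ C = C1 ∨ C = C1' := by
    intro C
    rw [← hfix C, mul_inv_eq_iff_eq_mul, pow_two]
    exact eq_comm
  have hii : ∀ C : A, γ * (γ * C⁻¹)⁻¹ = C := by
    intro C
    rw [mul_inv, inv_inv, mul_inv_cancel_left]
  set T : Finset A := {C0, C0', C1, C1'} with hT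
  have hTm : ∀ C, C ∈ T ↔ γ * C⁻¹ = C := by
    intro C
    rw [hfx C, hT]
    simp only [Finset.mem_insert, Finset.mem_singleton]
  have hTc : T.card = 4 := by
    rw [hT, Finset.card_insert_of_notMem, Finset.card_insert_of_notMem,
      Finset.card_insert_of_notMem, Finset.card_singleton]
    · simpa using h6
    · simpa using ⟨h4', h5⟩
    · simpa using ⟨h1, h2, h3⟩
  have hTs : ∑ C ∈ T, f C = f C0 + (f C0' + (f C1 + f C1')) := by
    rw [hT, Finset.sum_insert, Finset.sum_insert, Finset.sum_insert, Finset.sum_singleton]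
    · simpa using h6
    · simpa using ⟨h4', h5⟩
    · simpa using ⟨h1, h2, h3⟩
  obtain ⟨k, hk1, hk2⟩ := ESm4_pair (fun C : A => γ * C⁻¹) hii f q hfq _ (Finset.univ \ T) rfl
    (by
      intro C hC
      rw [Finset.mem_sdiff, hTm] at hC ⊢
      refine ⟨Finset.mem_univ _, fun h => hC.2 ?_⟩
      rw [hii C] at h
      exact h.symm) (by
      intro C hC
      rw [Finset.mem_sdiff, hTm] at hC
      exact hC.2)
  have hc := Finset.card_sdiff_add_card_eq_card (Finset.subset_univ T)
  rw [Finset.card_univ, hTc, hk1] at hc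
  obtain ⟨r, hr⟩ := h8
  have hkq : k • q = 2 • q := by
    have hk : k = (r - 1) * 4 + 2 := by omega
    rw [hk, add_nsmul, mul_nsmul', h4q, smul_zero, zero_add]
  have hs := Finset.sum_sdiff (Finset.subset_univ T) (f := f)
  rw [hfs, hk2, hkq, hTs] at hs
  have e0 : f C0 + f C0 = q := by
    have := hfq C0
    rwa [(hfx C0).2 (Or.inl rfl)] at this
  have e1 : f C1 + f C1 = q := by
    have := hfq C1
    rwa [(hfx C1).2 (Or.inr (Or.inr (Or.inl rfl)))] at this
  rw [← QuotientAddGroup.eq_zero_iff]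
  have h7 : (QuotientAddGroup.mk' E) ((P C0' - P C0) + (P C1' - P C1)) = 0 := by
    rw [map_add, map_sub, map_sub]
    change (f C0' - f C0) + (f C1' - f C1) = 0
    have h8 : (f C0' - f C0) + (f C1' - f C1) =
        (2 • q + (f C0 + (f C0' + (f C1 + f C1')))) - (2 • q + (f C0 + f C0) + (f C1 + f C1)) := by
      abel
    rw [h8, hs, e0, e1, zero_sub, neg_eq_zero]
    have h9 : 2 • q + q + q = 4 • q := by abel
    rw [h9, h4q]
  exact h7

end Pool.Agent.Work.MP_8efaaa_nt.M7
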