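import Mathlib
import Pool.Agent.Work.MP_787500_nt.HC.ClsA
import Pool.Agent.Work.MP_8efaaa_nt.K7.Defs
import Pool.Agent.Work.MP_8efaaa_nt.K7.E1c
import Pool.Agent.Work.MP_8efaaa_nt.K7.EPc
import Pool.Agent.Work.MP_8efaaa_nt.K7.AUn
import Pool.Agent.Work.MP_8efaaa_nt.K7.MZ
import Pool.Agent.Work.MP_8efaaa_nt.M7.ESm4
import Pool.Agent.Work.MP_8efaaa_nt.N7.EOld
import Pool.Agent.Work.MP_8efaaa_nt.N7.EPt
import Pool.Agent.Work.MP_8efaaa_nt.N7.DRed

/-!
# M7/Fix4 (helper33): the comparison of the four fixed classes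
-/

set_option autoImplicit false

namespace Pool.Agent.Work.MP_8efaaa_nt.M7

open IsDedekindDomain NumberField Pool.Agent.Work.MP_787500_nt.HC
open WeierstrassCurve WeierstrassCurve.Affine Pool.Agent.Work.MP_8efaaa_nt.T
open Pool.Agent.Work.MP_8efaaa_nt.N5 Pool.Agent.Work.MP_8efaaa_nt.N7
open Pool.Agent.Work.MP_8efaaa_nt.K7
open scoped nonZeroDivisors Classical

private theorem em_Q {F : Type*} [Field F] [CharZero F] : (cE F).Nonsingular 2 4 := by
  rw [nonsingular_iff', equation_iff]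
  simp only [cE]
  refine ⟨by ring, Or.inr ?_⟩
  norm_num

private theorem em_T {F : Type*} [Field F] [CharZero F] : (cE F).Nonsingular 0 0 := by
  rw [nonsingular_iff', equation_iff]
  simp only [cE]
  refine ⟨by ring, Or.inl ?_⟩
  norm_num

private theorem em_Q_add_Q {F : Type*} [Field F] [CharZero F] :
    (Point.some 2 4 em_Q : (cE F).Point) + Point.some 2 4 em_Q = Point.some 0 0 em_T := by
  have hy : (4 : F) ≠ (cE F).negY 2 4 := by
    simp only [negY, cE]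
    norm_num
  have hs : (cE F).slope 2 2 4 4 = 2 := by
    rw [slope_of_Y_ne rfl hy]
    simp only [negY, cE]
    norm_num
  rw [Point.add_self_of_Y_ne hy]
  simp only [Point.some.injEq]
  rw [hs]
  constructor
  · simp only [addX, cE]
    norm_num
  · simp only [addY, negAddY, negY, addX, cE]
    norm_num

private theorem em_T_add_T {F : Type*} [Field F] [CharZero F] :
    (Point.some 0 0 em_T : (cE F).Point) + Point.some 0 0 em_T = 0 := by
  rw [Point.add_of_Y_eq rfl]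
  simp only [negY, cE]
  norm_num

private theorem em_four {F : Type*} [Field F] [CharZero F] :
    4 • (Point.some 2 4 em_Q : (cE F).Point) = 0 := by
  have h2 : 2 • (Point.some 2 4 em_Q : (cE F).Point) = Point.some 0 0 em_T := by
    rw [two_nsmul, em_Q_add_Q]
  rw [show 4 = 2 * 2 by norm_num, mul_nsmul, h2, two_nsmul, em_T_add_T]

private theorem em_congr {F : Type*} [Field F] {W : WeierstrassCurve.Affine F} {x y x' y' : F}
    (hn : W.Nonsingular x y) (hn' : W.Nonsingular x' y') (hx : x = x') (hy : y = y') :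
    (Point.some x y hn : W.Point) = Point.some x' y' hn' := by
  subst hx
  subst hy
  rfl

section val

variable {F Γ : Type*} [Field F] [LinearOrderedCommGroupWithZero Γ] {V : Valuation F Γ}

theorem v_mul {x y x' y' : F} (hx : V x ≤ 1) (hy' : V y' ≤ 1) (h1 : V (x' - x) < 1)
    (h2 : V (y' - y) < 1) : V (x' * y' - x * y) < 1 := by
  have e : x' * y' - x * y = (x' - x) * y' + x * (y' - y) := by ring
  rw [e]
  refine lt_of_le_of_lt (V.map_add _ _) (max_lt ?_ ?_)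
  · rw [map_mul, mul_comm]
    exact mlt hy' h1
  · rw [map_mul]
    exact mlt hx h2

theorem v_inv {x x' : F} (hx : V x = 1) (hx' : V x' = 1) (h1 : V (x' - x) < 1) :
    V (x'⁻¹ - x⁻¹) < 1 := by
  have h0 : x ≠ 0 := by
    rintro rfl
    rw [map_zero] at hx
    exact zero_ne_one hx
  have h0' : x' ≠ 0 := by
    rintro rfl
    rw [map_zero] at hx'
    exact zero_ne_one hx'
  have e : x'⁻¹ - x⁻¹ = -((x' - x) * (x'⁻¹ * x⁻¹)) := by
    field_simp
    ring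
  rw [e, Valuation.map_neg, map_mul, map_mul, map_inv₀, map_inv₀, hx, hx', inv_one, mul_one,
    mul_one]
  exact h1

theorem v_sq {x x' : F} (hx : V x ≤ 1) (hx' : V x' ≤ 1) (h1 : V (x' - x) < 1) :
    V (x' ^ 2 - x ^ 2) < 1 := by
  rw [pow_two, pow_two]
  exact v_mul hx hx' h1 h1

end val

variable {K F : Type} [Field K] [NumberField K] [Field F] [NumberField F] [Algebra K F]

/-- `W ^ 2` at a fixed class is determined by `W'` -/
theorem w_fix {a d : ℕ} {s : K} {v : HeightOneSpectrum (𝓞 K)} {w : F}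
    {W W' : ClassGroup (𝓞 K) → F} {κ : F ≃ₐ[ℚ] F} (hI : IDat7 K F a d s v w W W' κ)
    {b : Ideal (𝓞 K)} {ι : F ≃ₐ[ℚ] F} (hW' : ∀ C, ι (W' C) = W (cl (idl b)⁻¹ * C⁻¹))
    {Γ : Type} [LinearOrderedCommGroupWithZero Γ] {V : Valuation F Γ} (h2 : V 2 = 1)
    (hVι : ∀ z : F, V z ≤ 1 → V (ι z - z) < 1) {C : ClassGroup (𝓞 K)}
    (hC : C ^ 2 = cl (pr v)⁻¹ * cl (idl b)⁻¹) :
    V (W C ^ 2 * (1 + W' C ^ 2) - 2 * W' C) < 1 := by
  have hu := wrel_unit hI.rel V h2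
  have h1 : cl (idl b)⁻¹ * C⁻¹ = cl (pr v) * C := by
    have h3 : cl (idl b)⁻¹ = cl (pr v) * C ^ 2 := by
      rw [hC, cl_inv (pr v), mul_inv_cancel_left]
    rw [h3, pow_two, mul_assoc, mul_inv_cancel_right]
  have h3 : V (W (cl (pr v) * C) - W' C) < 1 := by
    rw [← h1, ← hW']
    exact hVι _ (hu C).2.1.le
  have h4 := hI.rel.rec1 (cl (pr v) * C)
  rw [cl_inv, inv_mul_cancel_left] at h4
  have e : W C ^ 2 * (1 + W' C ^ 2) - 2 * W' C =
      2 * (W (cl (pr v) * C) - W' C) -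
        W C ^ 2 * (W (cl (pr v) * C) ^ 2 - W' C ^ 2) := by
    linear_combination h4
  rw [e]
  refine lt_of_le_of_lt (V.map_sub _ _) (max_lt ?_ ?_)
  · rw [map_mul]
    exact mlt h2.le h3
  · rw [map_mul, map_pow, (hu C).1, one_pow, one_mul]
    exact v_sq (hu C).2.1.le (hu _).1.le h3

theorem fix_sub {a d : ℕ} {s : K} {v : HeightOneSpectrum (𝓞 K)} {w : F}
    {W W' : ClassGroup (𝓞 K) → F} {κ : F ≃ₐ[ℚ] F} (hI : IDat7 K F a d s v w W W' κ)
    {b : Ideal (𝓞 K)} {ι : F ≃ₐ[ℚ] F} (hW' : ∀ C, ι (W' C) = W (cl (idl b)⁻¹ * C⁻¹))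
    {Γ : Type} [LinearOrderedCommGroupWithZero Γ] {V : Valuation F Γ} (h2 : V 2 = 1)
    (hVι : ∀ z : F, V z ≤ 1 → V (ι z - z) < 1) {C C' : ClassGroup (𝓞 K)}
    (hC : C ^ 2 = cl (pr v)⁻¹ * cl (idl b)⁻¹) (hC' : C' ^ 2 = cl (pr v)⁻¹ * cl (idl b)⁻¹)
    (hd : V (W' C' - W' C) < 1) :
    (Point.some (xW W W' C') (yW W W' C') (nonsing_W hI.rel C') -
      Point.some (xW W W' C) (yW W W' C) (nonsing_W hI.rel C) : (cE F).Point) ∈ E1c V := by
  have hu := wrel_unit hI.rel V h2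
  obtain ⟨hu1, hu2, -, -, hu5, -⟩ := hu C
  obtain ⟨hv1, hv2, -, -, hv5, -⟩ := hu C'
  have h1 := w_fix hI hW' h2 hVι hC
  have h1' := w_fix hI hW' h2 hVι hC'
  have hsq : V (W' C' ^ 2 - W' C ^ 2) < 1 := v_sq hu2.le hv2.le hd
  -- the squares of `W`
  have hA : V (W C' ^ 2 - W C ^ 2) < 1 := by
    have e : (W C' ^ 2 - W C ^ 2) * (1 + W' C ^ 2) =
        (W C' ^ 2 * (1 + W' C' ^ 2) - 2 * W' C') - (W C ^ 2 * (1 + W' C ^ 2) - 2 * W' C) +
          (2 * (W' C' - W' C) - W C' ^ 2 * (W' C' ^ 2 - W' C ^ 2)) := by ring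
    have h3 : V ((W C' ^ 2 - W C ^ 2) * (1 + W' C ^ 2)) < 1 := by
      rw [e]
      refine lt_of_le_of_lt (V.map_add _ _) (max_lt ?_ ?_)
      · exact lt_of_le_of_lt (V.map_sub _ _) (max_lt h1' h1)
      · refine lt_of_le_of_lt (V.map_sub _ _) (max_lt ?_ ?_)
        · rw [map_mul]
          exact mlt h2.le hd
        · rw [map_mul, map_pow, hv1, one_pow, one_mul]
          exact hsq
    rwa [map_mul, hu5, mul_one] at h3
  have hone : V (1 : F) ≤ 1 := by rw [map_one]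
  have hN : V (2 * (1 + W C ^ 2)) ≤ 1 := by
    rw [map_mul, h2, one_mul]
    exact (hu C).2.2.1.le
  have hN' : V (2 * (1 + W C' ^ 2)) ≤ 1 := by
    rw [map_mul, h2, one_mul]
    exact (hu C').2.2.1.le
  have hNd : V (2 * (1 + W C' ^ 2) - 2 * (1 + W C ^ 2)) < 1 := by
    have e : 2 * (1 + W C' ^ 2) - 2 * (1 + W C ^ 2) = 2 * (W C' ^ 2 - W C ^ 2) := by ring
    rw [e, map_mul, h2, one_mul]
    exact hA
  have hi : V ((W' C')⁻¹ - (W' C)⁻¹) < 1 := v_inv hu2 hv2 hd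
  have hiu : V (W' C)⁻¹ ≤ 1 := by rw [map_inv₀, hu2, inv_one]
  have hiv : V (W' C')⁻¹ ≤ 1 := by rw [map_inv₀, hv2, inv_one]
  have hi2 : V ((W' C')⁻¹ ^ 2 - (W' C)⁻¹ ^ 2) < 1 := v_sq hiu hiv hi
  have hiu2 : V ((W' C)⁻¹ ^ 2) ≤ 1 := by
    rw [map_pow]
    exact pow_le_one' hiu 2
  have hiv2 : V ((W' C')⁻¹ ^ 2) ≤ 1 := by
    rw [map_pow]
    exact pow_le_one' hiv 2
  have hx : V (xW W W' C' - xW W W' C) < 1 := by
    have e : xW W W' C' - xW W W' C =
        2 * (1 + W C' ^ 2) * (W' C')⁻¹ ^ 2 - 2 * (1 + W C ^ 2) * (W' C)⁻¹ ^ 2 := by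
      unfold xW
      rw [div_eq_mul_inv, div_eq_mul_inv, inv_pow, inv_pow]
    rw [e]
    exact v_mul hN hiv2 hNd hi2
  have hx1 : V (xW W W' C) ≤ 1 := by
    have e : xW W W' C = 2 * (1 + W C ^ 2) * (W' C)⁻¹ ^ 2 := by
      unfold xW
      rw [div_eq_mul_inv, inv_pow]
    rw [e, map_mul]
    exact mul_le_one' hN hiu2
  have hy : V (yW W W' C' - yW W W' C) < 1 := by
    have e : ∀ D, yW W W' D = 2 * (xW W W' D * (W' D)⁻¹) := by
      intro D
      unfold yW xW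
      have := hI.rel.ne' D
      field_simp
      ring
    rw [e, e, ← mul_sub, map_mul, h2, one_mul]
    exact v_mul hx1 hiv hx hi
  exact some_sub_mem h2 hx1 hx hy

/-- the comparison of the four fixed classes -/
theorem fix4 [FiniteDimensional K F] [IsGalois K F] {a d : ℕ} {s : K} (hb : Base K a s)
    (hnc : ¬ IsCongruent a) {v : HeightOneSpectrum (𝓞 K)} (hv : (2 : 𝓞 K) ∈ v.asIdeal) {w : F}
    {W W' : ClassGroup (𝓞 K) → F} {κ : F ≃ₐ[ℚ] F} (hI : IDat7 K F a d s v w W W' κ)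
    (h8 : 8 ∣ Nat.card (ClassGroup (𝓞 K))) {b : Ideal (𝓞 K)} {ι : F ≃ₐ[ℚ] F}
    (hW : ∀ C, ι (W C) = W' (cl (idl b)⁻¹ * C⁻¹)) (hW' : ∀ C, ι (W' C) = W (cl (idl b)⁻¹ * C⁻¹))
    {Γ : Type} [LinearOrderedCommGroupWithZero Γ] {V : Valuation F Γ} (h2 : V 2 = 1)
    (hVι : ∀ z : F, V z ≤ 1 → V (ι z - z) < 1) (hVi : ∀ z : F, V (ι z) = V z)
    {C0 C0' C1 C1' : ClassGroup (𝓞 K)} (h1 : C0 ≠ C0') (h2' : C0 ≠ C1) (h3 : C0 ≠ C1')
    (h4 : C0' ≠ C1) (h5 : C0' ≠ C1') (h6 : C1 ≠ C1')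
    (hfix : ∀ C : ClassGroup (𝓞 K), C ^ 2 = cl (pr v)⁻¹ * cl (idl b)⁻¹ ↔
      C = C0 ∨ C = C0' ∨ C = C1 ∨ C = C1')
    (hs0 : V (W' C0' - W' C0) < 1) (hs1 : V (W' C1' + W' C1) < 1) : False := by
  obtain ⟨m, hm⟩ := exists_galE ι
  set p := cl (pr v)⁻¹ with hp
  set g := cl (idl b)⁻¹ with hg
  -- the conjugate of a point
  have hpt : ∀ C, m (Point.some (xW W W' C) (yW W W' C) (nonsing_W hI.rel C)) +
      Point.some (xW W W' (p * g * C⁻¹)) (yW W W' (p * g * C⁻¹)) (nonsing_W hI.rel (p * g * C⁻¹)) =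
      Point.some 2 4 em_Q := by
    intro C
    obtain ⟨hn', h1⟩ := hm _ _ (nonsing_W hI.rel C)
    obtain ⟨hn, h2⟩ := pt_conj hI.rel hI.rec3 (g * C⁻¹) em_Q
    have h3 : (Point.some (ι (xW W W' C)) (ι (yW W W' C)) hn' : (cE F).Point) =
        Point.some _ _ hn := by
      apply em_congr
      · unfold xW
        rw [map_div₀, map_mul, map_add, map_one, map_pow, map_pow, map_ofNat, hW, hW']
      · unfold yW
        rw [map_div₀, map_mul, map_add, map_one, map_pow, map_pow, map_ofNat, hW, hW']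
    have h4 : (Point.some (xW W W' (p * g * C⁻¹)) (yW W W' (p * g * C⁻¹))
        (nonsing_W hI.rel (p * g * C⁻¹)) : (cE F).Point) =
        Point.some (xW W W' (p * (g * C⁻¹))) (yW W W' (p * (g * C⁻¹)))
        (nonsing_W hI.rel (p * (g * C⁻¹))) := by
      apply em_congr
      · rw [mul_assoc]
      · rw [mul_assoc]
    rw [h1, h3, h4]
    exact h2
  have hsum0 := (sum_zero7 hb hnc hv hI).1
  have hcard : 8 ∣ Fintype.card (ClassGroup (𝓞 K)) := by
    rwa [Nat.card_eq_fintype_card] at h8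
  have hgal : ∀ R : (cE F).Point, m R - R ∈ E1c V :=
    gal_sub_mem hm h2 hVi hVι
  have hsum := sum_fix4 (E1c V)
    (fun C => (Point.some (xW W W' C) (yW W W' C) (nonsing_W hI.rel C) : (cE F).Point)) m hgal
    hpt em_four hsum0 hcard h1 h2' h3 h4 h5 h6 hfix
  have ha := fix_sub hI hW' h2 hVι ((hfix C0).2 (Or.inl rfl)) ((hfix C0').2 (Or.inr (Or.inl rfl))) hs0
  have hb1 := (E1c V).sub_mem hsum ha
  rw [add_sub_cancel_left] at hb1
  have h7 : V (W' C1' - W' C1) < 1 := w_of_sub hI.rel h2 hb1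
  have h8 : V (2 * W' C1') < 1 := by
    have e : 2 * W' C1' = (W' C1' + W' C1) + (W' C1' - W' C1) := by ring
    rw [e]
    exact lt_of_le_of_lt (V.map_add _ _) (max_lt hs1 h7)
  rw [map_mul, h2, one_mul, (wrel_unit hI.rel V h2 C1').2.1] at h8
  exact lt_irrefl _ h8

end Pool.Agent.Work.MP_8efaaa_nt.M7
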