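import Mathlib
import Pool.Agent.Work.MP_787500_nt.HC.ClsA
import Pool.Agent.Work.MP_8efaaa_nt.K7.Defs
import Pool.Agent.Work.MP_8efaaa_nt.K7.ARs
import Pool.Agent.Work.MP_8efaaa_nt.K7.ATu
import Pool.Agent.Work.MP_8efaaa_nt.K7.AUn
import Pool.Agent.Work.MP_8efaaa_nt.K7.MZ
import Pool.Agent.Work.MP_8efaaa_nt.N7.IBas

/-!
# M7/Val (helper33): the value of `W'` at the fixed classes modulo `L`
-/

set_option autoImplicit false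

namespace Pool.Agent.Work.MP_8efaaa_nt.M7

open IsDedekindDomain NumberField Pool.Agent.Work.MP_787500_nt.HC
open Pool.Agent.Work.MP_8efaaa_nt.T Pool.Agent.Work.MP_8efaaa_nt.R
open Pool.Agent.Work.MP_8efaaa_nt.N5 Pool.Agent.Work.MP_8efaaa_nt.N7
open Pool.Agent.Work.MP_8efaaa_nt.K7
open scoped nonZeroDivisors

variable {K : Type*} {F : Type*} [Field K] [NumberField K] [Field F] [NumberField F]
    [Algebra K F] {a d : ℕ} {x y : ℤ} {s : K} {S : 𝓞 K} {τ : 𝓞 K ≃+* 𝓞 K}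
    {v v' : HeightOneSpectrum (𝓞 K)} {ζ w m m' : F} {W W' : ClassGroup (𝓞 K) → F}
    {Z Z' : Ideal (𝓞 K) → F} {κ : F ≃ₐ[ℚ] F}

theorem val_sq (hb : Base K a s) (hS : algebraMap (𝓞 K) K S = s) (hτ : τ S = -S)
    (h : D7 K F a d x y s S τ v v' ζ w m m' W W' Z Z' κ) {b : Ideal (𝓞 K)} (hbo : OddI b)
    {c : Ideal (𝓞 K)} (hc : OddI c) (hcl : cl (idl c) ^ 2 = cl (pr v) ^ 7 * cl (idl b)) :
    (Z c * Z' (b * cj τ c)) ^ 2 = 2 ∧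
      Z' (b * cj τ c) ^ 2 = 1 + W' (cl (pr v) ^ 3 * (cl (idl c))⁻¹) ^ 2 := by
  have hcj : OddI (cj τ c) := (oddI_cj7 hb hS hτ).2 hc
  have hbc : OddI (b * cj τ c) := oddI_mul7.2 ⟨hbo, hcj⟩
  have hcl2 : cl (((pr v)⁻¹) ^ 4 * (idl (b * cj τ c))⁻¹) = cl (pr v) ^ 3 * (cl (idl c))⁻¹ := by
    rw [cl_mul, cl_pow, cl_inv, cl_inv, idl_mul (oddI_ne7 hbo) (oddI_ne7 hcj), cl_mul,
      cl_cj7 hb hS hτ (oddI_ne7 hc)]
    rw [mul_inv, inv_inv, eq_mul_inv_iff_mul_eq, mul_assoc, mul_assoc, ← pow_two, hcl,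
      inv_pow, mul_comm (cl (pr v) ^ 7), inv_mul_cancel_left, inv_mul_eq_iff_eq_mul, ← pow_add]
  have h2 := h.z1' _ hbc
  rw [hcl2] at h2
  refine ⟨?_, h2⟩
  rw [mul_pow, h.z1 c hc, h2]
  have h1 := h.id.rec3 (cl (pr v ^ 4 * (idl c)⁻¹))
  have h3 : cl (pr v)⁻¹ * cl (pr v ^ 4 * (idl c)⁻¹) = cl (pr v) ^ 3 * (cl (idl c))⁻¹ := by
    rw [cl_mul, cl_pow, cl_inv, cl_inv, ← mul_assoc, pow_succ' (cl (pr v)) 3, inv_mul_cancel_left]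
  rwa [h3] at h1

theorem val_mod (hb : Base K a s) (hS : algebraMap (𝓞 K) K S = s) (hτ : τ S = -S)
    (h : D7 K F a d x y s S τ v v' ζ w m m' W W' Z Z' κ) {b : Ideal (𝓞 K)} (hbo : OddI b)
    {c : Ideal (𝓞 K)} (hc : OddI c) (hcl : cl (idl c) ^ 2 = cl (pr v) ^ 7 * cl (idl b))
    {ι : F ≃ₐ[ℚ] F} (hιZ : ∀ c, OddI c → ι (Z c) = Z' (b * cj τ c))
    {Γ : Type} [LinearOrderedCommGroupWithZero Γ] {V : Valuation F Γ} (h2 : V 2 = 1)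
    (hVι : ∀ z : F, V z ≤ 1 → V (ι z - z) < 1) :
    V (W' (cl (pr v) ^ 3 * (cl (idl c))⁻¹) ^ 2 - (Z c * Z' (b * cj τ c) - 1)) < 1 := by
  obtain ⟨-, h3⟩ := val_sq hb hS hτ h hbo hc hcl
  have hu := wrel_unit h.id.rel V h2 (cl (pr v ^ 4 * (idl c)⁻¹))
  have hVZ : V (Z c) = 1 := by
    have h3 : V (Z c) ^ 2 = 1 := by
      rw [← map_pow, h.z1 c hc]
      exact hu.2.2.1
    exact le_antisymm ((pow_le_one_iff two_ne_zero).1 h3.le)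
      ((one_le_pow_iff two_ne_zero).1 h3.ge)
  have hVZ' : V (Z' (b * cj τ c)) = 1 := by
    have h4 : V (Z' (b * cj τ c)) ^ 2 = 1 := by
      rw [← map_pow, h3]
      exact (wrel_unit h.id.rel V h2 _).2.2.2.2.1
    exact le_antisymm ((pow_le_one_iff two_ne_zero).1 h4.le)
      ((one_le_pow_iff two_ne_zero).1 h4.ge)
  have h4 := hVι (Z c) hVZ.le
  rw [hιZ c hc] at h4
  have e : W' (cl (pr v) ^ 3 * (cl (idl c))⁻¹) ^ 2 - (Z c * Z' (b * cj τ c) - 1) =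
      Z' (b * cj τ c) * (Z' (b * cj τ c) - Z c) := by
    linear_combination -h3
  rw [e, map_mul, hVZ', one_mul]
  exact h4

end Pool.Agent.Work.MP_8efaaa_nt.M7
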