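import Mathlib
import Pool.Agent.Work.MP_787500_nt.HC.ClsA
import Pool.Agent.Work.MP_8efaaa_nt.K7.Defs
import Pool.Agent.Work.MP_8efaaa_nt.K7.DAc
import Pool.Agent.Work.MP_8efaaa_nt.K7.DVl
import Pool.Agent.Work.MP_8efaaa_nt.K7.GRm
import Pool.Agent.Work.MP_8efaaa_nt.K7.GAm
import Pool.Agent.Work.MP_8efaaa_nt.K7.GPr
import Pool.Agent.Work.MP_8efaaa_nt.K7.MBas
import Pool.Agent.Work.MP_8efaaa_nt.K7.MZ
import Pool.Agent.Work.MP_8efaaa_nt.M7.CDx
import Pool.Agent.Work.MP_8efaaa_nt.M7.VSg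
import Pool.Agent.Work.MP_8efaaa_nt.M7.GTw
import Pool.Agent.Work.MP_8efaaa_nt.M7.GSq3
import Pool.Agent.Work.MP_8efaaa_nt.M7.Fix4
import Pool.Agent.Work.MP_8efaaa_nt.M7.Val
import Pool.Agent.Work.MP_8efaaa_nt.N7.EMain
import Pool.Agent.Work.MP_8efaaa_nt.N7.DIn

/-!
# M7/Main (helper33): the theorem

`r1 r2 l` is a congruent number for primes `r1, r2 = 3 (mod 8)`, `l = 7 (mod 8)`.
-/

set_option autoImplicit false

namespace Pool.Agent.Work.MP_8efaaa_nt.M7

open IsDedekindDomain NumberField Pool.Agent.Work.MP_787500_nt.HC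
open Pool.Agent.Work.MP_8efaaa_nt.T Pool.Agent.Work.MP_8efaaa_nt.R
open Pool.Agent.Work.MP_8efaaa_nt.N5 Pool.Agent.Work.MP_8efaaa_nt.N7
open Pool.Agent.Work.MP_8efaaa_nt.K7
open scoped nonZeroDivisors

private theorem fix_group4 {G : Type*} [CommGroup G] {C0 Q R γ : G} (h0 : C0 ^ 2 = γ)
    (hQ : Q ^ 2 = 1) (hR : R ^ 2 = 1) (h2 : ∀ C : G, C ^ 2 = 1 → C = 1 ∨ C = Q ∨ C = R ∨ C = Q * R)
    (C : G) : C ^ 2 = γ ↔ C = C0 ∨ C = Q * C0 ∨ C = R * C0 ∨ C = Q * (R * C0) := by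
  constructor
  · intro h
    have h1 : (C * C0⁻¹) ^ 2 = 1 := by
      rw [mul_pow, inv_pow, h, h0, mul_inv_cancel]
    rcases h2 _ h1 with h3 | h3 | h3 | h3
    · left
      rwa [mul_inv_eq_one] at h3
    · right; left
      rw [← h3, inv_mul_cancel_right]
    · right; right; left
      rw [← h3, inv_mul_cancel_right]
    · right; right; right
      rw [← mul_assoc, ← h3, inv_mul_cancel_right]
  · rintro (rfl | rfl | rfl | rfl)
    · exact h0
    · rw [mul_pow, hQ, one_mul, h0]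
    · rw [mul_pow, hR, one_mul, h0]
    · rw [mul_pow, mul_pow, hQ, hR, one_mul, one_mul, h0]

/-- reciprocity for two numbers congruent to `3` modulo `4` -/
private theorem recip34 {r n : ℕ} (hr : r % 4 = 3) (hn : n % 4 = 3) (h : jacobiSym r n = 1) :
    jacobiSym n r = -1 := by
  have := jacobiSym.quadratic_reciprocity_three_mod_four hr hn
  rw [this] at h
  linarith

theorem cj_r7 {K : Type*} [Field K] [NumberField K] {S : 𝓞 K} {τ : 𝓞 K ≃+* 𝓞 K}
    (hτ : τ S = -S) {d : ℕ} : cj τ (K6.r6 S d) = K6.r6 S d := by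
  unfold cj K6.r6
  rw [Ideal.map_span, Set.image_pair]
  have e1 : (τ : 𝓞 K →+* 𝓞 K) (d : 𝓞 K) = (d : 𝓞 K) := map_natCast _ _
  have e2 : (τ : 𝓞 K →+* 𝓞 K) S = -S := hτ
  rw [e1, e2]
  apply le_antisymm
  · rw [Ideal.span_le]
    intro z hz
    rcases hz with hz | hz
    · rw [hz]
      exact Ideal.subset_span (Or.inl rfl)
    · have h1 : S ∈ Ideal.span {(d : 𝓞 K), S} := Ideal.subset_span (Or.inr rfl)
      rw [Set.mem_singleton_iff.1 hz]
      exact (Ideal.span {(d : 𝓞 K), S}).neg_mem h1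
  · rw [Ideal.span_le]
    intro z hz
    rcases hz with hz | hz
    · rw [hz]
      exact Ideal.subset_span (Or.inl rfl)
    · have h1 : -S ∈ Ideal.span {(d : 𝓞 K), -S} := Ideal.subset_span (Or.inr rfl)
      have h2 := (Ideal.span {(d : 𝓞 K), -S}).neg_mem h1
      rw [neg_neg] at h2
      rw [Set.mem_singleton_iff.1 hz]
      exact h2

theorem main_t337 {r r' l : ℕ} (hr : r.Prime) (hr' : r'.Prime) (hl : l.Prime) (hr8 : r % 8 = 3)
    (hr8' : r' % 8 = 3) (hl8 : l % 8 = 7) (hne : r ≠ r') : IsCongruent (r * r' * l) := by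
  by_contra hnc
  have hrl : r ≠ l := by
    rintro rfl
    omega
  have hrl' : r' ≠ l := by
    rintro rfl
    omega
  have hsf : Squarefree (r * r' * l) := by
    rw [Nat.squarefree_mul, Nat.squarefree_mul ((Nat.coprime_primes hr hr').2 hne)]
    · exact ⟨⟨hr.squarefree, hr'.squarefree⟩, hl.squarefree⟩
    · exact Nat.Coprime.mul_left ((Nat.coprime_primes hr hl).2 hrl)
        ((Nat.coprime_primes hr' hl).2 hrl')
  have ha8 : r * r' * l % 8 = 7 := by
    rw [Nat.mul_mod, Nat.mul_mod r, hr8, hr8', hl8]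
  obtain ⟨K, _, _, s, hb⟩ := exists_base7 hsf ha8
  obtain ⟨S, hS⟩ := exists_S7 hb
  obtain ⟨τ, hτ⟩ := exists_tau7 hb hS
  obtain ⟨v, hv⟩ : ∃ v : HeightOneSpectrum (𝓞 K), (2 : 𝓞 K) ∈ v.asIdeal := by
    obtain ⟨v, hv⟩ := Pool.Agent.Work.MP_787500_nt.Quad.exists_place (K := K) Nat.prime_two
    exact ⟨v, by exact_mod_cast hv⟩
  have h8 : 8 ∣ Nat.card (ClassGroup (𝓞 K)) := by
    by_contra h8
    exact hnc (main7 hb h8)
  have hl2 : l ≠ 2 := by
    rintro rfl
    omega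
  have hla : l ∣ r * r' * l := Dvd.intro_left _ rfl
  have hra : r ∣ r * r' * l := by
    rw [mul_assoc]
    exact Dvd.intro _ rfl
  obtain ⟨F, _, _, _, _, _, _, v', ζ, w, m, m', W, W', Z, Z', κ, hD, hmm⟩ :=
    exists_d7x hb hS hτ hv (d := r) hr.ne_zero (2 * r' : ℤ) 0
  have hm' : m' = m := hmm rfl (by positivity)
  -- inertia
  obtain ⟨ι, L, hin, hlL, hιs⟩ := exists_inert7 (F := F) hb hl hla
  obtain ⟨Γ, _, V, hV⟩ := exists_vl7 hin.prime
  obtain ⟨hVq, hV2, hVn⟩ := vl_nat7 hV hl hl2 hlL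
  obtain ⟨hVi, hVι⟩ := vl_inert7 hV hin
  have hlr : ¬ l ∣ r := fun h1 => hrl ((Nat.prime_dvd_prime_iff_eq hl hr).1 h1).symm
  have hlr' : ¬ l ∣ r' := fun h1 => hrl' ((Nat.prime_dvd_prime_iff_eq hl hr').1 h1).symm
  obtain ⟨b, t, hb8, hbc, hbt, hbj, hιW, hιW', hιZ, -, hιm⟩ :=
    inert_act7 hb hS hτ hD hr.ne_zero hl hl2 hlr hlL hin hιs one_ne_zero
  have hbo : OddI b := by
    unfold OddI
    rw [Nat.odd_iff]
    omega
  have hb0 : b ≠ ⊥ := oddI_ne7 hbo
  rw [hm'] at hιm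
  -- the square root of `r'`
  have hm2 : m ^ 2 = (r' : F) := by
    have h1 := hD.hm
    push_cast at h1
    rw [zero_mul, add_zero] at h1
    exact mul_left_cancel₀ two_ne_zero h1
  have hVm : V m = 1 := by
    have h1 : V m ^ 2 = 1 := by
      rw [← map_pow, hm2]
      by_contra h2
      have h3 : V ((r' : ℤ) : F) ≤ 1 := by
        have h4 := hV.int ((r' : ℤ) : 𝓞 F)
        rwa [map_intCast] at h4
      rw [Int.cast_natCast] at h3
      have h4 := (hVn r').1 (by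
        rw [Int.cast_natCast]
        exact lt_of_le_of_ne h3 h2)
      exact hlr' (by exact_mod_cast h4)
    exact le_antisymm ((pow_le_one_iff two_ne_zero).1 h1.le)
      ((one_le_pow_iff two_ne_zero).1 h1.ge)
  have hbr' : jacobiSym r' (Ideal.absNorm b) = 1 := by
    have hg2 : Int.gcd 2 (Ideal.absNorm b) = 1 := by
      have h4 : Nat.Coprime 2 (Ideal.absNorm b) := by
        rw [Nat.coprime_two_left]
        exact hbo
      exact h4
    have h1 : (2 : ℤ) * (2 * r' - 0 * t) = 2 ^ 2 * r' := by ring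
    rw [h1, jacobiSym.mul_left, jacobiSym.sq_one' hg2, one_mul] at hιm
    have hgr : Int.gcd (r' : ℤ) (Ideal.absNorm b) = 1 := by
      have h4 : Nat.Coprime r' (Ideal.absNorm b) :=
        (Nat.Coprime.coprime_dvd_right (by
          rw [mul_one]
          exact Dvd.dvd.mul_left (by
            rw [mul_assoc]
            exact Dvd.dvd.mul_left (Dvd.intro _ rfl) _) _) hbc).symm
      exact h4
    rcases jacobiSym.eq_one_or_neg_one hgr with h2 | h2
    · exact h2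
    · exfalso
      rw [h2] at hιm
      have h3 := hVι m hVm.le
      rw [hιm] at h3
      have h5 : (((-1 : ℤ) : F) * m - m) = -(2 * m) := by
        push_cast
        ring
      rw [h5, Valuation.map_neg, map_mul, hV2, hVm, one_mul] at h3
      exact lt_irrefl _ h3
  have hj1 : jacobiSym (Ideal.absNorm b) r = -1 := recip34 (by omega) (by omega) hbj
  have hj2 : jacobiSym (Ideal.absNorm b) r' = -1 := recip34 (by omega) (by omega) hbr'
  have hcop : Nat.Coprime (Ideal.absNorm b) (r * r') :=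
    Nat.Coprime.coprime_dvd_right (by
      rw [mul_one]
      exact Dvd.dvd.mul_left (Dvd.intro _ rfl) _) hbc
  obtain ⟨D, hD2⟩ := sq_v_mul hb hS hr hr' hl hr8 hr8' hl8 hne rfl hv hb0 hcop hj1 hj2
  obtain ⟨c1, -, hc1, -, -, hc1D⟩ := exists_prim7 hb hS (D * cl (pr v) ^ 3) (M := 1) one_ne_zero
  have hcl : cl (idl c1) ^ 2 = cl (pr v) ^ 7 * cl (idl b) := by
    rw [hc1D, mul_pow, hD2, ← pow_mul, mul_right_comm, ← pow_succ']
  set g := K6.r6 S r with hg
  have hgn : Ideal.absNorm g = r := norm_r7 hb hS hra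
  have hgo : OddI g := by
    unfold OddI
    rw [hgn, Nat.odd_iff]
    omega
  have hgi : cl (idl g)⁻¹ = cl (idl g) := r7_inv hb hS hra
  have hcg : cj τ g = g := cj_r7 hτ
  have hgc : OddI (g * c1) := oddI_mul7.2 ⟨hgo, hc1⟩
  have hg2 : cl (idl g) ^ 2 = 1 := by
    rw [pow_two]
    nth_rewrite 1 [← hgi]
    rw [cl_inv, inv_mul_cancel]
  have hclg : cl (idl (g * c1)) ^ 2 = cl (pr v) ^ 7 * cl (idl b) := by
    rw [idl_mul (oddI_ne7 hgo) (oddI_ne7 hc1), cl_mul, mul_pow, hg2, one_mul, hcl]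
  -- the signs
  have hv0 := val_mod hb hS hτ hD hbo hc1 hcl hιZ hV2 hVι
  have hv1 := val_mod hb hS hτ hD hbo hgc hclg hιZ hV2 hVι
  have hθ2 := (val_sq hb hS hτ hD hbo hc1 hcl).1
  set θ := Z c1 * Z' (b * cj τ c1) with hθ
  have hmove : Z (g * c1) * Z' (b * cj τ (g * c1)) = -θ := by
    obtain ⟨σ, hσζ, hσ⟩ := hD.mov g hgo
    have hcj : OddI (cj τ c1) := (oddI_cj7 hb hS hτ).2 hc1
    have e1 : b * cj τ (g * c1) = g * (b * cj τ c1) := by
      rw [cj_mul7, hcg]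
      ring
    rw [e1, ← (hσ c1 hc1).1, ← (hσ _ (oddI_mul7.2 ⟨hbo, hcj⟩)).2, ← map_mul, ← hθ]
    have e2 : σ (ζ + ζ ^ 7) = -(ζ + ζ ^ 7) := by
      rw [map_add, map_pow, hσζ, zeta_odd hD.z8 hgo, hgn]
      have e3 : e8 (r : ℤ) = -1 := by
        unfold e8
        rw [if_neg (by omega)]
      rw [e3]
      push_cast
      ring
    have e4 : (ζ + ζ ^ 7) ^ 2 = 2 := by
      have h1 := hD.z8
      have h2 : (ζ + ζ ^ 7) ^ 2 = ζ ^ 2 + 2 * (ζ ^ 4) ^ 2 + (ζ ^ 4) ^ 3 * ζ ^ 2 := by ring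
      rw [h2, h1]
      ring
    rcases sq_eq_sq_iff_eq_or_eq_neg.1 (hθ2.trans e4.symm) with h1 | h1
    · rw [h1, e2]
    · rw [h1, map_neg, e2]
  rw [hmove] at hv1
  set C0 := cl (pr v) ^ 3 * (cl (idl c1))⁻¹ with hC0
  have hC1 : cl (pr v) ^ 3 * (cl (idl (g * c1)))⁻¹ = cl (idl g) * C0 := by
    rw [idl_mul (oddI_ne7 hgo) (oddI_ne7 hc1), cl_mul, mul_inv, ← cl_inv (idl g), hgi, hC0]
    exact mul_left_comm _ _ _
  rw [hC1] at hv1
  have hC0sq : C0 ^ 2 = cl (pr v)⁻¹ * cl (idl b)⁻¹ := by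
    rw [cl_inv, cl_inv]
    exact grp3 hcl
  have hrq : cl (idl (K6.r6 S l))⁻¹ = cl (idl (K6.r6 S l)) := r7_inv hb hS hla
  have hQ2 : cl (idl (K6.r6 S l)) ^ 2 = 1 := by
    rw [pow_two]
    nth_rewrite 1 [← hrq]
    rw [cl_inv, inv_mul_cancel]
  have hfix := fix_group4 hC0sq hQ2 hg2 (two3 hb hS hr hr' hl rfl)
  -- the classes are different
  have hr1 := hr.one_lt
  have hr1' := hr'.one_lt
  have hl1 := hl.one_lt
  have nQ : cl (idl (K6.r6 S l)) ≠ 1 := r7_ne_one hb hS hla hl1.ne' (by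
    intro h1
    have h2 : r * r' = 1 := by
      apply Nat.eq_of_mul_eq_mul_right hl.pos
      rw [one_mul]
      exact h1.symm
    have := Nat.eq_one_of_mul_eq_one_right h2
    omega)
  have nR : cl (idl g) ≠ 1 := r7_ne_one hb hS hra hr1.ne' (by
    intro h1
    have h2 : r' * l = 1 := by
      apply Nat.eq_of_mul_eq_mul_left hr.pos
      rw [mul_one, ← mul_assoc]
      exact h1.symm
    have := Nat.eq_one_of_mul_eq_one_right h2
    omega)
  have hlra : l * r ∣ r * r' * l := ⟨r', by ring⟩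
  have nQR : cl (idl (K6.r6 S l)) * cl (idl g) ≠ 1 := by
    have h3 := r7_ne_one hb hS hlra (by
      intro h4
      have := Nat.eq_one_of_mul_eq_one_right h4
      omega) (by
      intro h1
      have h2 : r' = 1 := by
        apply Nat.eq_of_mul_eq_mul_left (Nat.mul_pos hl.pos hr.pos)
        calc l * r * r' = r * r' * l := by ring
          _ = l * r := h1.symm
          _ = l * r * 1 := (mul_one _).symm
      omega)
    rwa [r7_mul hb hS hlra, idl_mul, cl_mul] at h3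
    · exact oddI_ne7 (by
        unfold OddI
        rw [norm_r7 hb hS hla, Nat.odd_iff]
        omega)
    · exact oddI_ne7 hgo
  set Q := cl (idl (K6.r6 S l)) with hQ
  set R := cl (idl g) with hR
  have d1 : C0 ≠ Q * C0 := fun h => nQ (mul_eq_right.1 h.symm)
  have d2 : C0 ≠ R * C0 := fun h => nR (mul_eq_right.1 h.symm)
  have d3 : C0 ≠ Q * (R * C0) := fun h => nQR (by
    rw [← mul_assoc] at h
    exact mul_eq_right.1 h.symm)
  have d4 : Q * C0 ≠ R * C0 := fun h => nQR (by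
    have h1 := mul_right_cancel h
    rw [← h1, ← pow_two, hQ2])
  have d5 : Q * C0 ≠ Q * (R * C0) := fun h => d2 (mul_left_cancel h)
  have d6 : R * C0 ≠ Q * (R * C0) := fun h => nQ (mul_eq_right.1 h.symm)
  -- Kronecker's congruence at the ramified prime
  have hcom : L.comap (algebraMap (𝓞 K) (𝓞 F)) = K6.r6 S l := by
    have := hin.prime
    apply r7_unique hb hS hl hla (Ideal.comap_isPrime _ _)
    rw [Ideal.mem_comap, map_natCast]
    exact hlL
  have hnorm : Ideal.absNorm (L.comap (algebraMap (𝓞 K) (𝓞 F))) = l := by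
    rw [hcom]
    exact norm_r7 hb hS hla
  have hkr : ∀ C, V (W' (Q * C) - W' C ^ l) < 1 := by
    intro C
    have h1 := (hD.kron l L Γ V hV hl hl2 hnorm C).2
    rwa [hcom, hrq] at h1
  have hu := wrel_unit hD.id.rel V hV2
  have hsw : ∀ C, V (W' (Q * C) + W' C) < 1 → V (W' (Q * (Q * C)) + W' (Q * C)) < 1 := by
    intro C h1
    rw [← mul_assoc, ← pow_two, hQ2, one_mul, add_comm]
    exact h1
  rcases two_signs V hl hl8 hVn hθ2 hv0 (by
      have e : W' (R * C0) ^ 2 - (-θ - 1) = W' (R * C0) ^ 2 + θ + 1 := by ring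
      rwa [e] at hv1) with ⟨h1, h2⟩ | ⟨h1, h2⟩
  · refine fix4 hb hnc hv hD.id h8 hιW hιW' hV2 hVι hVi d1 d2 d3 d4 d5 d6 hfix ?_ ?_
    · have e : W' (Q * C0) - W' C0 = (W' (Q * C0) - W' C0 ^ l) + (W' C0 ^ l - W' C0) := by ring
      rw [e]
      exact lt_of_le_of_lt (V.map_add _ _) (max_lt (hkr C0) h1)
    · have e : W' (Q * (R * C0)) + W' (R * C0) =
          (W' (Q * (R * C0)) - W' (R * C0) ^ l) + (W' (R * C0) ^ l + W' (R * C0)) := by ring
      rw [e]
      exact lt_of_le_of_lt (V.map_add _ _) (max_lt (hkr _) h2)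
  · refine fix4 hb hnc hv hD.id h8 hιW hιW' hV2 hVι hVi d6 d2.symm d4.symm d3.symm d5.symm d1
      (fun C => ?_) ?_ ?_
    · rw [hfix C]
      tauto
    · have e : W' (Q * (R * C0)) - W' (R * C0) =
          (W' (Q * (R * C0)) - W' (R * C0) ^ l) + (W' (R * C0) ^ l - W' (R * C0)) := by ring
      rw [e]
      exact lt_of_le_of_lt (V.map_add _ _) (max_lt (hkr _) h2)
    · have e : W' (Q * C0) + W' C0 = (W' (Q * C0) - W' C0 ^ l) + (W' C0 ^ l + W' C0) := by ring
      rw [e]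
      exact lt_of_le_of_lt (V.map_add _ _) (max_lt (hkr C0) h1)

end Pool.Agent.Work.MP_8efaaa_nt.M7
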