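import Mathlib
import Pool.Agent.Work.MP_8efaaa_nt.K7.Defs
import Pool.Agent.Work.MP_8efaaa_nt.K7.EEu

/-!
# M7/VSg (S-M): signs modulo a prime

`θ ^ 2 = 2`, `x0 ^ 2 = θ - 1`, `x1 ^ 2 = - θ - 1` modulo the valuation, `l = 7 (mod 8)` is `0`. Then `2 ^ ((l - 1) / 2) = 1`, so `θ ^ l = θ`, `(x0 ^ 2) ^ l = x0 ^ 2` (Frobenius is additive in characteristic `l`), so `x0 ^ l = ± x0`, `x1 ^ l = ± x1`;
`(x0 x1) ^ 2 = -(θ - 1) (θ + 1) = -1`, so `(x0 x1) ^ (l - 1) = (-1) ^ ((l - 1) / 2) = -1`, so the two signs are different. (Work in the residue field, see `K7/EEu.lean`.)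
-/

set_option autoImplicit false

namespace Pool.Agent.Work.MP_8efaaa_nt.M7

open IsDedekindDomain NumberField Pool.Agent.Work.MP_787500_nt.HC
open Pool.Agent.Work.MP_8efaaa_nt.T Pool.Agent.Work.MP_8efaaa_nt.R
open Pool.Agent.Work.MP_8efaaa_nt.N5 Pool.Agent.Work.MP_8efaaa_nt.N7
open Pool.Agent.Work.MP_8efaaa_nt.K7
open scoped nonZeroDivisors

theorem two_signs {F Γ : Type*} [Field F] [LinearOrderedCommGroupWithZero Γ] (V : Valuation F Γ)
    {l : ℕ} (hl : l.Prime) (hl8 : l % 8 = 7) (hVn : ∀ n : ℤ, V (n : F) < 1 ↔ (l : ℤ) ∣ n)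
    {θ x0 x1 : F} (hθ : θ ^ 2 = 2) (h0 : V (x0 ^ 2 - (θ - 1)) < 1)
    (h1 : V (x1 ^ 2 + θ + 1) < 1) :
    (V (x0 ^ l - x0) < 1 ∧ V (x1 ^ l + x1) < 1) ∨ (V (x0 ^ l + x0) < 1 ∧ V (x1 ^ l - x1) < 1) := by
  haveI := Fact.mk hl
  have hle2 : ∀ {z : F}, V (z ^ 2) ≤ 1 → V z ≤ 1 := by
    intro z hz
    by_contra h
    rw [map_pow] at hz
    exact absurd hz (not_le.2 (one_lt_pow₀ (not_le.1 h) two_ne_zero))
  have hV2 : V (2 : F) ≤ 1 := by
    have h := V.map_add 1 1
    rw [map_one, max_self, one_add_one_eq_two] at h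
    exact h
  have hVθ : V θ ≤ 1 := hle2 (by rw [hθ]; exact hV2)
  have hVθ1 : V (θ - 1) ≤ 1 := (V.map_sub _ _).trans (max_le hVθ (by rw [map_one]))
  have hVθ2 : V (θ + 1) ≤ 1 := (V.map_add _ _).trans (max_le hVθ (by rw [map_one]))
  have hVx0 : V x0 ≤ 1 := by
    apply hle2
    rw [show x0 ^ 2 = (x0 ^ 2 - (θ - 1)) + (θ - 1) by ring]
    exact (V.map_add _ _).trans (max_le h0.le hVθ1)
  have hVx1 : V x1 ≤ 1 := by
    apply hle2
    rw [show x1 ^ 2 = (x1 ^ 2 + θ + 1) - (θ + 1) by ring]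
    exact (V.map_sub _ _).trans (max_le h1.le hVθ2)
  -- the residue field
  have hres : ∀ z : V.valuationSubring, IsLocalRing.residue V.valuationSubring z = 0 ↔
      V (z : F) < 1 := by
    intro z
    rw [IsLocalRing.residue_eq_zero_iff, ValuationSubring.valuation_lt_one_iff]
    exact (Valuation.isEquiv_iff_val_lt_one.1
      (Valuation.isEquiv_valuation_valuationSubring V)).symm
  let k := IsLocalRing.ResidueField V.valuationSubring
  let π : V.valuationSubring →+* k := IsLocalRing.residue V.valuationSubring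
  have hπ : ∀ z : V.valuationSubring, π z = 0 ↔ V (z : F) < 1 := hres
  have hint : ∀ n : ℤ, (n : k) = 0 ↔ (l : ℤ) ∣ n := by
    intro n
    rw [← hVn n]
    have h := hπ (n : V.valuationSubring)
    rw [map_intCast] at h
    rw [h]
    simp
  haveI : CharP k l := (CharP.charP_iff_prime_eq_zero hl).2 (by
    have := (hint l).2 dvd_rfl
    exact_mod_cast this)
  obtain ⟨t, ht⟩ : ∃ t : V.valuationSubring, (t : F) = θ := ⟨⟨θ, hVθ⟩, rfl⟩
  obtain ⟨u, hu⟩ : ∃ u : V.valuationSubring, (u : F) = x0 := ⟨⟨x0, hVx0⟩, rfl⟩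
  obtain ⟨v, hv⟩ : ∃ v : V.valuationSubring, (v : F) = x1 := ⟨⟨x1, hVx1⟩, rfl⟩
  have e1 : π t ^ 2 = 2 := by
    have h : t ^ 2 = 2 := by
      apply Subtype.ext
      have h3 : ((2 : V.valuationSubring) : F) = 2 := rfl
      show ((t ^ 2 : V.valuationSubring) : F) = ((2 : V.valuationSubring) : F)
      rw [h3]
      push_cast
      rw [ht, hθ]
    rw [← map_pow, h]
    exact map_ofNat π 2
  have e2 : π u ^ 2 = π t - 1 := by
    have h : π (u ^ 2 - (t - 1)) = 0 := by
      rw [hπ]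
      push_cast
      rw [hu, ht]
      exact h0
    rw [map_sub, map_pow, map_sub, map_one] at h
    exact sub_eq_zero.1 h
  have e3 : π v ^ 2 = -π t - 1 := by
    have h : π (v ^ 2 + t + 1) = 0 := by
      rw [hπ]
      push_cast
      rw [hv, ht]
      exact h1
    rw [map_add, map_add, map_pow, map_one] at h
    linear_combination h
  obtain ⟨N, hN⟩ : ∃ N : ℕ, N = (l - 1) / 2 := ⟨_, rfl⟩
  have hN2 : l = 2 * N + 1 := by omega
  have hNodd : Odd N := by
    rw [Nat.odd_iff]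
    omega
  have c1 : (2 : k) ^ N = 1 := by
    have h3 := legendreSym.eq_pow l 2
    have h4 : legendreSym l 2 = 1 := by
      rw [legendreSym.at_two (by omega), ZMod.χ₈_nat_eq_if_mod_eight]
      have h5 : ¬ l % 2 = 0 := by omega
      have h6 : l % 8 = 1 ∨ l % 8 = 7 := by omega
      rw [if_neg h5, if_pos h6]
    rw [h4, show l / 2 = N by omega] at h3
    have h5 : (l : ℤ) ∣ 2 ^ N - 1 := by
      rw [← ZMod.intCast_zmod_eq_zero_iff_dvd]
      push_cast
      push_cast at h3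
      rw [← h3, sub_self]
    have h6 := (hint _).2 h5
    push_cast at h6
    exact sub_eq_zero.1 h6
  have f1 : π t ^ l = π t := by
    rw [hN2, pow_succ, pow_mul, e1, c1, one_mul]
  have f2 : (π u ^ l) ^ 2 = π u ^ 2 := by
    rw [← pow_mul, mul_comm l 2, pow_mul, e2, sub_pow_char, f1, one_pow]
  have f3 : (π v ^ l) ^ 2 = π v ^ 2 := by
    rw [← pow_mul, mul_comm l 2, pow_mul, e3, sub_pow_char, one_pow, Odd.neg_pow (by
      rw [hN2]; exact odd_two_mul_add_one N), f1]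
  have f4 : (π u * π v) ^ 2 = -1 := by
    rw [mul_pow, e2, e3]
    linear_combination -e1
  have f5 : (π u * π v) ^ l = -(π u * π v) := by
    rw [hN2, pow_succ, pow_mul, f4, hNodd.neg_one_pow]
    ring
  have f6 : ¬ (π u * π v = -(π u * π v)) := by
    intro h
    have h2 : (2 : k) * (π u * π v) = 0 := by linear_combination h
    have h3 : (2 : k) ≠ 0 := by
      intro h4
      have h5 := (hint 2).1 (by exact_mod_cast h4)
      have := Int.le_of_dvd (by norm_num) h5
      omega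
    have h4 : π u * π v = 0 := (mul_eq_zero.1 h2).resolve_left h3
    rw [h4] at f4
    norm_num at f4
  rw [mul_pow] at f5
  have g0 : ∀ z : V.valuationSubring, π z ^ l = π z → V ((z : F) ^ l - z) < 1 := by
    intro z hz
    have h : π (z ^ l - z) = 0 := by rw [map_sub, map_pow, hz, sub_self]
    rw [hπ] at h
    push_cast at h
    exact h
  have g1 : ∀ z : V.valuationSubring, π z ^ l = -π z → V ((z : F) ^ l + z) < 1 := by
    intro z hz
    have h : π (z ^ l + z) = 0 := by rw [map_add, map_pow, hz, neg_add_cancel]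
    rw [hπ] at h
    push_cast at h
    exact h
  rcases sq_eq_sq_iff_eq_or_eq_neg.1 f2 with h2 | h2 <;>
    rcases sq_eq_sq_iff_eq_or_eq_neg.1 f3 with h3 | h3
  · exfalso
    rw [h2, h3] at f5
    exact f6 f5
  · left
    rw [← hu, ← hv]
    exact ⟨g0 u h2, g1 v h3⟩
  · right
    rw [← hu, ← hv]
    exact ⟨g1 u h2, g0 v h3⟩
  · exfalso
    rw [h2, h3, neg_mul_neg] at f5
    exact f6 f5

end Pool.Agent.Work.MP_8efaaa_nt.M7
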